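import Mathlib

set_option autoImplicit false

namespace Pool.Agent.Helper90.Sol

open Nat.Partrec

/-- `F` is a functional computing `f` from the oracle `g`, through finite
initial segments of `g`. -/
structure IsUse (g : ℕ → ℕ) (f : ℕ →. ℕ) (F : List ℕ → ℕ →. ℕ) : Prop where
  mono : ∀ σ τ : List ℕ, σ <+: τ → ∀ m v, v ∈ F σ m → v ∈ F τ m
  spec : ∀ m v, v ∈ f m ↔ ∃ k, v ∈ F ((List.range k).map g) m

/-- The initial segment of `g` of length `k`. -/
def seg (g : ℕ → ℕ) (k : ℕ) : List ℕ := (List.range k).map g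

theorem seg_length (g : ℕ → ℕ) (k : ℕ) : (seg g k).length = k := by
  simp [seg]

theorem seg_succ (g : ℕ → ℕ) (k : ℕ) : seg g (k + 1) = seg g k ++ [g k] := by
  simp [seg, List.range_succ]

theorem seg_prefix (g : ℕ → ℕ) {k l : ℕ} (h : k ≤ l) : seg g k <+: seg g l := by
  induction h with
  | refl => exact List.prefix_rfl
  | step _ ih =>
    rw [Nat.succ_eq_add_one, seg_succ]
    exact ih.trans (List.prefix_append _ _)

theorem seg_getElem? (g : ℕ → ℕ) (k n : ℕ) : (seg g k)[n]? = if n < k then some (g n) else none := by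
  simp only [seg, List.getElem?_map]
  split_ifs with h
  · rw [List.getElem?_range h]; rfl
  · rw [List.getElem?_eq_none (by simpa using h)]; rfl

theorem use_aux_mono {g : ℕ → ℕ} {f : ℕ →. ℕ} {F : List ℕ → ℕ →. ℕ} (h : IsUse g f F)
    {k l : ℕ} (hkl : k ≤ l) {m v : ℕ} (hv : v ∈ F (seg g k) m) : v ∈ F (seg g l) m :=
  h.mono _ _ (seg_prefix g hkl) m v hv

/-- The use principle. -/
theorem exists_use (g : ℕ → ℕ) (f : ℕ →. ℕ)
    (hf : Nat.RecursiveIn {(fun m => Part.some (g m) : ℕ →. ℕ)} f) :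
    ∃ F : List ℕ → ℕ →. ℕ, Partrec₂ F ∧ IsUse g f F := by
  induction hf with
  | zero =>
    refine ⟨fun _ _ => Part.some 0, (Computable.const 0).partrec, ⟨?_, ?_⟩⟩
    · intro σ τ _ m v hv; exact hv
    · intro m v
      exact ⟨fun h => ⟨0, h⟩, fun ⟨_, h⟩ => h⟩
  | succ =>
    refine ⟨fun _ m => Part.some (Nat.succ m), (Computable.succ.comp Computable.snd).partrec,
      ⟨?_, ?_⟩⟩
    · intro σ τ _ m v hv; exact hv
    · intro m v
      exact ⟨fun h => ⟨0, h⟩, fun ⟨_, h⟩ => h⟩
  | left =>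
    refine ⟨fun _ m => Part.some (Nat.unpair m).1,
      (Computable.fst.comp (Computable.unpair.comp Computable.snd)).partrec, ⟨?_, ?_⟩⟩
    · intro σ τ _ m v hv; exact hv
    · intro m v
      exact ⟨fun h => ⟨0, h⟩, fun ⟨_, h⟩ => h⟩
  | right =>
    refine ⟨fun _ m => Part.some (Nat.unpair m).2,
      (Computable.snd.comp (Computable.unpair.comp Computable.snd)).partrec, ⟨?_, ?_⟩⟩
    · intro σ τ _ m v hv; exact hv
    · intro m v
      exact ⟨fun h => ⟨0, h⟩, fun ⟨_, h⟩ => h⟩
  | oracle g' hg' =>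
    have hg'' : g' = (fun m => Part.some (g m) : ℕ →. ℕ) := hg'
    subst hg''
    refine ⟨fun σ m => (σ[m]? : Part ℕ), Computable.ofOption Computable.list_getElem?, ⟨?_, ?_⟩⟩
    · intro σ τ hστ m v hv
      rw [Part.mem_ofOption, Option.mem_def] at hv ⊢
      obtain ⟨ρ, rfl⟩ := hστ
      have hm : m < σ.length := by
        by_contra hcon
        rw [List.getElem?_eq_none (by omega)] at hv
        exact absurd hv (by simp)
      rw [List.getElem?_append_left hm]
      exact hv
    · intro m v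
      rw [Part.mem_some_iff]
      constructor
      · rintro rfl
        refine ⟨m + 1, ?_⟩
        rw [Part.mem_ofOption, Option.mem_def]
        have := seg_getElem? g (m + 1) m
        rw [if_pos (Nat.lt_succ_self m)] at this
        exact this
      · rintro ⟨k, hk⟩
        rw [Part.mem_ofOption, Option.mem_def] at hk
        have := seg_getElem? g k m
        change (seg g k)[m]? = some v at hk
        rw [this] at hk
        split_ifs at hk with h
        exact (Option.some.inj hk).symm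
  | @pair f₁ f₂ _ _ ih₁ ih₂ =>
    obtain ⟨F₁, hF₁, hU₁⟩ := ih₁
    obtain ⟨F₂, hF₂, hU₂⟩ := ih₂
    refine ⟨fun σ m => (F₁ σ m).bind fun x => (F₂ σ m).map fun y => Nat.pair x y, ?_, ⟨?_, ?_⟩⟩
    · refine Partrec.bind hF₁ (Partrec.map (hF₂.comp (Computable.fst.comp Computable.fst)
        (Computable.snd.comp Computable.fst)) ?_)
      exact (Primrec₂.natPair.comp (Primrec.snd.comp Primrec.fst) Primrec.snd).to_comp
    · intro σ τ hστ m v hv
      simp only [Part.mem_bind_iff, Part.mem_map_iff] at hv ⊢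
      obtain ⟨x, hx, y, hy, rfl⟩ := hv
      exact ⟨x, hU₁.mono _ _ hστ _ _ hx, y, hU₂.mono _ _ hστ _ _ hy, rfl⟩
    · intro m v
      have e : ((Nat.pair <$> f₁ m <*> f₂ m : Part ℕ)) =
          (f₁ m).bind fun x => (f₂ m).map fun y => Nat.pair x y := by
        simp [Seq.seq, Part.map_eq_map, Part.bind_map]
      rw [e]
      simp only [Part.mem_bind_iff, Part.mem_map_iff]
      constructor
      · rintro ⟨x, hx, y, hy, rfl⟩
        obtain ⟨k₁, hk₁⟩ := (hU₁.spec _ _).1 hx
        obtain ⟨k₂, hk₂⟩ := (hU₂.spec _ _).1 hy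
        exact ⟨max k₁ k₂, x, use_aux_mono hU₁ (le_max_left _ _) hk₁, y,
          use_aux_mono hU₂ (le_max_right _ _) hk₂, rfl⟩
      · rintro ⟨k, x, hx, y, hy, rfl⟩
        exact ⟨x, (hU₁.spec _ _).2 ⟨k, hx⟩, y, (hU₂.spec _ _).2 ⟨k, hy⟩, rfl⟩
  | @comp f₁ f₂ _ _ ih₁ ih₂ =>
    obtain ⟨F₁, hF₁, hU₁⟩ := ih₁
    obtain ⟨F₂, hF₂, hU₂⟩ := ih₂
    refine ⟨fun σ m => (F₂ σ m).bind fun x => F₁ σ x, ?_, ⟨?_, ?_⟩⟩
    · exact Partrec.bind hF₂ (hF₁.comp (Computable.fst.comp Computable.fst) Computable.snd)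
    · intro σ τ hστ m v hv
      simp only [Part.mem_bind_iff] at hv ⊢
      obtain ⟨x, hx, hy⟩ := hv
      exact ⟨x, hU₂.mono _ _ hστ _ _ hx, hU₁.mono _ _ hστ _ _ hy⟩
    · intro m v
      have e : ∀ w : Part ℕ, v ∈ w.bind f₁ ↔ ∃ x ∈ w, v ∈ f₁ x := fun w => Part.mem_bind_iff
      refine (e (f₂ m)).trans ?_
      simp only [Part.mem_bind_iff]
      constructor
      · rintro ⟨x, hx, hy⟩
        obtain ⟨k₁, hk₁⟩ := (hU₂.spec _ _).1 hx
        obtain ⟨k₂, hk₂⟩ := (hU₁.spec _ _).1 hy
        exact ⟨max k₁ k₂, x, use_aux_mono hU₂ (le_max_left _ _) hk₁,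
          use_aux_mono hU₁ (le_max_right _ _) hk₂⟩
      · rintro ⟨k, x, hx, hy⟩
        exact ⟨x, (hU₂.spec _ _).2 ⟨k, hx⟩, (hU₁.spec _ _).2 ⟨k, hy⟩⟩
  | @prec f₁ f₂ _ _ ih₁ ih₂ =>
    obtain ⟨F₁, hF₁, hU₁⟩ := ih₁
    obtain ⟨F₂, hF₂, hU₂⟩ := ih₂
    let G : List ℕ → ℕ → ℕ → Part ℕ := fun σ a n =>
      n.rec (F₁ σ a) fun y IH => IH.bind fun i => F₂ σ (Nat.pair a (Nat.pair y i))
    have Gmono : ∀ (σ τ : List ℕ), σ <+: τ → ∀ a n v, v ∈ G σ a n → v ∈ G τ a n := by
      intro σ τ hστ a n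
      induction n with
      | zero => intro v hv; exact hU₁.mono _ _ hστ _ _ hv
      | succ n ih =>
        intro v hv
        simp only [G, Part.mem_bind_iff] at hv ⊢
        obtain ⟨x, hx, hy⟩ := hv
        exact ⟨x, ih x hx, hU₂.mono _ _ hστ _ _ hy⟩
    refine ⟨fun σ m => G σ m.unpair.1 m.unpair.2, ?_, ⟨?_, ?_⟩⟩
    · have := Partrec.nat_rec (α := List ℕ × ℕ) (σ := ℕ) (f := fun p => p.2.unpair.2)
        (g := fun p => F₁ p.1 p.2.unpair.1)
        (h := fun p q => F₂ p.1 (Nat.pair p.2.unpair.1 (Nat.pair q.1 q.2)))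
        (Computable.snd.comp (Computable.unpair.comp Computable.snd))
        (hF₁.comp Computable.fst (Computable.fst.comp (Computable.unpair.comp Computable.snd)))
        (hF₂.comp (Computable.fst.comp Computable.fst)
          ((Primrec₂.natPair.comp (Primrec.fst.comp (Primrec.unpair.comp
            (Primrec.snd.comp Primrec.fst))) (Primrec₂.natPair.comp
              (Primrec.fst.comp Primrec.snd) (Primrec.snd.comp Primrec.snd))).to_comp))
      exact this
    · intro σ τ hστ m v hv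
      exact Gmono σ τ hστ _ _ _ hv
    · intro m v
      change v ∈ (Nat.rec (f₁ m.unpair.1) (fun y IH => IH.bind fun i =>
        f₂ (Nat.pair m.unpair.1 (Nat.pair y i))) m.unpair.2 : Part ℕ) ↔
        ∃ k, v ∈ G (seg g k) m.unpair.1 m.unpair.2
      generalize m.unpair.1 = a
      generalize m.unpair.2 = n
      induction n generalizing v with
      | zero => exact hU₁.spec a v
      | succ n ih =>
        simp only [G, Part.mem_bind_iff]
        constructor
        · rintro ⟨x, hx, hy⟩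
          obtain ⟨k₁, hk₁⟩ := (ih x).1 hx
          obtain ⟨k₂, hk₂⟩ := (hU₂.spec _ _).1 hy
          exact ⟨max k₁ k₂, x, Gmono _ _ (seg_prefix g (le_max_left k₁ k₂)) _ _ _ hk₁,
            use_aux_mono hU₂ (le_max_right _ _) hk₂⟩
        · rintro ⟨k, x, hx, hy⟩
          exact ⟨x, (ih x).2 ⟨k, hx⟩, (hU₂.spec _ _).2 ⟨k, hy⟩⟩
  | @rfind f₁ _ ih₁ =>
    obtain ⟨F₁, hF₁, hU₁⟩ := ih₁
    refine ⟨fun σ a => Nat.rfind fun n => (F₁ σ (Nat.pair a n)).map fun m => decide (m = 0),
      ?_, ⟨?_, ?_⟩⟩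
    · refine Partrec.rfind (α := List ℕ × ℕ)
        (p := fun q n => (F₁ q.1 (Nat.pair q.2 n)).map fun m => decide (m = 0)) ?_
      refine Partrec.map (hF₁.comp (Computable.fst.comp Computable.fst)
        ((Primrec₂.natPair.comp (Primrec.snd.comp Primrec.fst) Primrec.snd).to_comp)) ?_
      exact (Primrec.eq.decide.comp Primrec.snd (Primrec.const 0)).to_comp
    · intro σ τ hστ m v hv
      have hv' := Nat.mem_rfind.1 hv
      refine Nat.mem_rfind.2 ⟨?_, ?_⟩
      · obtain ⟨x, hx, hx'⟩ := (Part.mem_map_iff _).1 hv'.1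
        exact (Part.mem_map_iff _).2 ⟨x, hU₁.mono _ _ hστ _ _ hx, hx'⟩
      · intro l hl
        obtain ⟨x, hx, hx'⟩ := (Part.mem_map_iff _).1 (hv'.2 hl)
        exact (Part.mem_map_iff _).2 ⟨x, hU₁.mono _ _ hστ _ _ hx, hx'⟩
    · intro m v
      constructor
      · intro hv
        obtain ⟨h1, h2⟩ := Nat.mem_rfind.1 hv
        have h1' : ∃ x ∈ f₁ (Nat.pair m v), decide (x = 0) = true :=
          (Part.mem_map_iff _).1 h1
        have h2' : ∀ l, l < v → ∃ x ∈ f₁ (Nat.pair m l), decide (x = 0) = false := by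
          intro l hl
          exact (Part.mem_map_iff _).1 (h2 hl)
        obtain ⟨x, hx, hx0⟩ := h1'
        obtain ⟨k₁, hk₁⟩ := (hU₁.spec _ _).1 hx
        have h3 : ∃ K, ∀ l, l < v → ∃ x ∈ F₁ (seg g K) (Nat.pair m l), decide (x = 0) = false := by
          clear hx hk₁ h1 h2 hv
          induction v with
          | zero => exact ⟨0, fun l hl => absurd hl (Nat.not_lt_zero l)⟩
          | succ v ihv =>
            obtain ⟨K, hK⟩ := ihv (fun l hl => h2' l (by omega))
            obtain ⟨x, hx, hx0⟩ := h2' v (Nat.lt_succ_self v)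
            obtain ⟨k, hk⟩ := (hU₁.spec _ _).1 hx
            refine ⟨max K k, fun l hl => ?_⟩
            rcases Nat.lt_or_ge l v with hlv | hlv
            · obtain ⟨y, hy, hy0⟩ := hK l hlv
              exact ⟨y, use_aux_mono hU₁ (le_max_left _ _) hy, hy0⟩
            · have : l = v := by omega
              subst this
              exact ⟨x, use_aux_mono hU₁ (le_max_right _ _) hk, hx0⟩
        obtain ⟨K, hK⟩ := h3
        refine ⟨max k₁ K, Nat.mem_rfind.2 ⟨?_, ?_⟩⟩
        · exact (Part.mem_map_iff _).2 ⟨x, use_aux_mono hU₁ (le_max_left _ _) hk₁, hx0⟩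
        · intro l hl
          obtain ⟨y, hy, hy0⟩ := hK l hl
          exact (Part.mem_map_iff _).2 ⟨y, use_aux_mono hU₁ (le_max_right _ _) hy, hy0⟩
      · rintro ⟨k, hk⟩
        obtain ⟨h1, h2⟩ := Nat.mem_rfind.1 hk
        refine Nat.mem_rfind.2 ⟨?_, ?_⟩
        · obtain ⟨x, hx, hx0⟩ := (Part.mem_map_iff _).1 h1
          exact (Part.mem_map_iff _).2 ⟨x, (hU₁.spec _ _).2 ⟨k, hx⟩, hx0⟩
        · intro l hl
          obtain ⟨x, hx, hx0⟩ := (Part.mem_map_iff _).1 (h2 hl)
          exact (Part.mem_map_iff _).2 ⟨x, (hU₁.spec _ _).2 ⟨k, hx⟩, hx0⟩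

/-- Functions computable from initial segments of computable length are reducible to the
oracle. -/
theorem reducible_of_seg (g : ℕ → ℕ) (K : ℕ → ℕ) (hK : Computable K)
    (Φ : ℕ × List ℕ → ℕ) (hΦ : Computable Φ) :
    TuringReducible (fun m => Part.some (Φ (m, seg g (K m)))) (fun m => Part.some (g m)) := by
  refine RecursiveIn.iff_nat.2 ?_
  set O : Set (ℕ →. ℕ) := {(fun m => Part.some (g m) : ℕ →. ℕ)} with hO
  have horc : Nat.RecursiveIn O (fun m => Part.some (g m)) :=
    Nat.RecursiveIn.oracle _ rfl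
  have toR : ∀ {f : ℕ → ℕ}, Computable f → Nat.RecursiveIn O (fun n => Part.some (f n)) := by
    intro f hf
    exact Nat.Partrec.recursiveIn (Partrec.nat_iff.1 hf)
  -- the coded initial segment
  let L : ℕ → ℕ := fun n => Encodable.encode (seg g n)
  have hL : Nat.RecursiveIn O (fun p => Part.some (L p.unpair.2)) := by
    -- step function
    let app : ℕ → ℕ := fun z => Encodable.encode
      (((Encodable.decode (α := List ℕ) z.unpair.1).getD []) ++ [z.unpair.2])
    have happ : Computable app := by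
      refine Computable.encode.comp ((Primrec.list_concat.comp (Primrec.option_getD.comp
        (Primrec.decode.comp (Primrec.fst.comp Primrec.unpair)) (Primrec.const []))
        (Primrec.snd.comp Primrec.unpair)).to_comp)
    have hstep : Nat.RecursiveIn O (fun z => Part.some (app (Nat.pair z.unpair.2.unpair.2
        (g z.unpair.2.unpair.1)))) := by
      have h1 : Nat.RecursiveIn O (fun z => Part.some (z.unpair.2.unpair.2)) :=
        toR ((Primrec.snd.comp (Primrec.unpair.comp (Primrec.snd.comp Primrec.unpair))).to_comp)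
      have h2 : Nat.RecursiveIn O (fun z => Part.some (g z.unpair.2.unpair.1)) := by
        have h3 : Nat.RecursiveIn O (fun z => Part.some (z.unpair.2.unpair.1)) :=
          toR ((Primrec.fst.comp (Primrec.unpair.comp (Primrec.snd.comp Primrec.unpair))).to_comp)
        refine (Nat.RecursiveIn.comp horc h3).of_eq fun z => ?_
        simp
      refine (Nat.RecursiveIn.comp (toR happ) (Nat.RecursiveIn.pair h1 h2)).of_eq fun z => ?_
      simp [Seq.seq]
    refine (Nat.RecursiveIn.prec (toR (Computable.const (Encodable.encode ([] : List ℕ))))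
      hstep).of_eq fun p => ?_
    change (Nat.rec (Part.some (Encodable.encode ([] : List ℕ))) (fun y IH => IH.bind fun i =>
      Part.some (app (Nat.pair (Nat.pair p.unpair.1 (Nat.pair y i)).unpair.2.unpair.2
        (g (Nat.pair p.unpair.1 (Nat.pair y i)).unpair.2.unpair.1)))) p.unpair.2 : Part ℕ) = _
    generalize p.unpair.1 = a
    generalize p.unpair.2 = n
    induction n with
    | zero => rfl
    | succ n ih =>
      dsimp only at ih ⊢
      rw [ih]
      simp only [Part.bind_some]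
      congr 1
      simp [app, L, seg_succ]
  have hKm : Nat.RecursiveIn O (fun m => Part.some (L (K m))) := by
    refine (Nat.RecursiveIn.comp hL (toR ((Primrec₂.natPair.to_comp.comp
      (Computable.const 0) hK)))).of_eq fun m => ?_
    simp
  let Ψ : ℕ → ℕ := fun z => Φ (z.unpair.1, (Encodable.decode (α := List ℕ) z.unpair.2).getD [])
  have hΨ : Computable Ψ := by
    refine hΦ.comp (Computable.pair (Computable.fst.comp Computable.unpair)
      ((Primrec.option_getD.comp (Primrec.decode.comp (Primrec.snd.comp Primrec.unpair))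
        (Primrec.const [])).to_comp))
  refine (Nat.RecursiveIn.comp (toR hΨ) (Nat.RecursiveIn.pair (toR Computable.id) hKm)).of_eq
    fun m => ?_
  simp [Seq.seq, Ψ, L]

end Pool.Agent.Helper90.Sol
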