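import Pool.Agent.Helper90.Sol.Generic

set_option autoImplicit false

namespace Pool.Agent.Helper90.Sol

open Encodable
open Nat.Partrec (Code)
open Nat.Partrec.Code

/-- Validity of a choice, as a `∀ ∃` matrix. Arguments: stage, string, choice; inner
arguments; witness. -/
def vm (z : (ℕ × List ℕ × ℕ) × ((ℕ × ℕ) × ℕ) × (ℕ × ℕ)) : Bool :=
  (decide (z.1.2.2 = 0) || Qm (z.1.1, z.1.2.1, z.1.2.2 - 1, z.2.1.1.1, z.2.1.1.2)) &&
    ((decide (¬ z.1.2.2 = 0) && decide (z.1.2.2 ≤ z.2.1.2 + 1)) ||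
      !(Qm (z.1.1, z.1.2.1, z.2.1.2, z.2.2.1, z.2.2.2)))

theorem vm_prim : Primrec vm := by
  unfold vm
  have i1 : Primrec (fun z : (ℕ × List ℕ × ℕ) × ((ℕ × ℕ) × ℕ) × (ℕ × ℕ) => z.1.1) :=
    Primrec.fst.comp Primrec.fst
  have i2 : Primrec (fun z : (ℕ × List ℕ × ℕ) × ((ℕ × ℕ) × ℕ) × (ℕ × ℕ) => z.1.2.1) :=
    Primrec.fst.comp (Primrec.snd.comp Primrec.fst)
  have i3 : Primrec (fun z : (ℕ × List ℕ × ℕ) × ((ℕ × ℕ) × ℕ) × (ℕ × ℕ) => z.1.2.2) :=
    Primrec.snd.comp (Primrec.snd.comp Primrec.fst)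
  have i4 : Primrec (fun z : (ℕ × List ℕ × ℕ) × ((ℕ × ℕ) × ℕ) × (ℕ × ℕ) => z.2.1.1.1) :=
    Primrec.fst.comp (Primrec.fst.comp (Primrec.fst.comp Primrec.snd))
  have i5 : Primrec (fun z : (ℕ × List ℕ × ℕ) × ((ℕ × ℕ) × ℕ) × (ℕ × ℕ) => z.2.1.1.2) :=
    Primrec.snd.comp (Primrec.fst.comp (Primrec.fst.comp Primrec.snd))
  have i6 : Primrec (fun z : (ℕ × List ℕ × ℕ) × ((ℕ × ℕ) × ℕ) × (ℕ × ℕ) => z.2.1.2) :=
    Primrec.snd.comp (Primrec.fst.comp Primrec.snd)
  have i7 : Primrec (fun z : (ℕ × List ℕ × ℕ) × ((ℕ × ℕ) × ℕ) × (ℕ × ℕ) => z.2.2.1) :=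
    Primrec.fst.comp (Primrec.snd.comp Primrec.snd)
  have i8 : Primrec (fun z : (ℕ × List ℕ × ℕ) × ((ℕ × ℕ) × ℕ) × (ℕ × ℕ) => z.2.2.2) :=
    Primrec.snd.comp (Primrec.snd.comp Primrec.snd)
  have z1 : Primrec (fun z : (ℕ × List ℕ × ℕ) × ((ℕ × ℕ) × ℕ) × (ℕ × ℕ) =>
      decide (z.1.2.2 = 0)) := (Primrec.eq.comp i3 (Primrec.const 0)).decide
  have z2 : Primrec (fun z : (ℕ × List ℕ × ℕ) × ((ℕ × ℕ) × ℕ) × (ℕ × ℕ) =>
      decide (¬ z.1.2.2 = 0)) := (PrimrecPred.not (Primrec.eq.comp i3 (Primrec.const 0))).decide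
  have z3 : Primrec (fun z : (ℕ × List ℕ × ℕ) × ((ℕ × ℕ) × ℕ) × (ℕ × ℕ) =>
      decide (z.1.2.2 ≤ z.2.1.2 + 1)) :=
    (Primrec.nat_le.comp i3 (Primrec.nat_add.comp i6 (Primrec.const 1))).decide
  have q1 : Primrec (fun z : (ℕ × List ℕ × ℕ) × ((ℕ × ℕ) × ℕ) × (ℕ × ℕ) =>
      Qm (z.1.1, z.1.2.1, z.1.2.2 - 1, z.2.1.1.1, z.2.1.1.2)) :=
    Qm_prim.comp (i1.pair (i2.pair ((Primrec.nat_sub.comp i3 (Primrec.const 1)).pair
      (i4.pair i5))))
  have q2 : Primrec (fun z : (ℕ × List ℕ × ℕ) × ((ℕ × ℕ) × ℕ) × (ℕ × ℕ) =>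
      Qm (z.1.1, z.1.2.1, z.2.1.2, z.2.2.1, z.2.2.2)) :=
    Qm_prim.comp (i1.pair (i2.pair (i6.pair (i7.pair i8))))
  exact Primrec.and.comp (Primrec.or.comp z1 q1)
    (Primrec.or.comp (Primrec.and.comp z2 z3) (Primrec.not.comp q2))

open Classical in
theorem valid_iff (i : ℕ) (σ : List ℕ) (o : ℕ) :
    (∀ b : (ℕ × ℕ) × ℕ, ∃ c : ℕ × ℕ, vm ((i, σ, o), b, c) = true) ↔ o = ch i σ := by
  have hnQ : ∀ p, ¬ Q i σ p ↔ ∃ c : ℕ × ℕ, Qm (i, σ, p, c.1, c.2) = false := by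
    intro p
    unfold Q
    push Not
    simp
  constructor
  · intro h
    rcases Nat.eq_zero_or_pos o with ho | ho
    · subst ho
      have h1 : ∀ p, ¬ Q i σ p := by
        intro p
        rw [hnQ]
        obtain ⟨c, hc⟩ := h ((0, 0), p)
        refine ⟨c, ?_⟩
        simpa [vm] using hc
      unfold ch
      rw [dif_neg (by push Not; exact h1)]
    · obtain ⟨p, rfl⟩ := Nat.exists_eq_succ_of_ne_zero ho.ne'
      have h1 : Q i σ p := by
        intro u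
        obtain ⟨c, hc⟩ := h (u, 0)
        simp only [vm, Bool.and_eq_true, Bool.or_eq_true, decide_eq_true_eq] at hc
        rcases hc.1 with h2 | h2
        · exact absurd h2 (Nat.succ_ne_zero p)
        · simpa using h2
      have h2 : ∀ p' < p, ¬ Q i σ p' := by
        intro p' hp'
        rw [hnQ]
        obtain ⟨c, hc⟩ := h ((0, 0), p')
        simp only [vm, Bool.and_eq_true, Bool.or_eq_true, decide_eq_true_eq] at hc
        rcases hc.2 with h2 | h2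
        · omega
        · exact ⟨c, by simpa using h2⟩
      have hex : ∃ p, Q i σ p := ⟨p, h1⟩
      unfold ch
      rw [dif_pos hex]
      have : Nat.find hex = p := by
        rw [Nat.find_eq_iff]
        exact ⟨h1, h2⟩
      rw [this]
  · rintro rfl b
    rcases Nat.eq_zero_or_pos (ch i σ) with ho | ho
    · obtain ⟨c, hc⟩ := (hnQ b.2).1 (ch_zero ho b.2)
      exact ⟨c, by simp [vm, ho, hc]⟩
    · obtain ⟨p, hp⟩ := Nat.exists_eq_succ_of_ne_zero ho.ne'
      obtain ⟨h1, h2⟩ := ch_spec hp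
      have h3 := h1 b.1
      by_cases hlt : b.2 < p
      · obtain ⟨c, hc⟩ := (hnQ b.2).1 (h2 b.2 hlt)
        exact ⟨c, by simp [vm, hp, h3, hc]⟩
      · refine ⟨(0, 0), ?_⟩
        have h4 : p ≤ b.2 := by omega
        simp [vm, hp, h3, h4]

/-- Default entry. -/
def dflt : List ℕ × ℕ := ([], 0)

/-- The matrix describing the graph of the construction. -/
def grm (z : (ℕ × List ℕ) × List (List ℕ × ℕ) × (ℕ × ((ℕ × ℕ) × ℕ)) × (ℕ × ℕ)) : Bool :=
  decide ((z.2.1.getD 0 dflt).1 = []) &&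
    (decide ((z.2.1.getD z.1.1 dflt).1 = z.1.2) &&
      (decide (¬ z.2.2.1.1 < z.1.1) ||
        (decide ((z.2.1.getD (z.2.2.1.1 + 1) dflt).1 = stp (z.2.1.getD z.2.2.1.1 dflt)) &&
          vm ((z.2.2.1.1, z.2.1.getD z.2.2.1.1 dflt), z.2.2.1.2, z.2.2.2))))

theorem grm_prim : Primrec grm := by
  unfold grm
  have i1 : Primrec (fun z : (ℕ × List ℕ) × List (List ℕ × ℕ) × (ℕ × ((ℕ × ℕ) × ℕ)) × (ℕ × ℕ) =>
      z.2.1) := Primrec.fst.comp Primrec.snd
  have i2 : Primrec (fun z : (ℕ × List ℕ) × List (List ℕ × ℕ) × (ℕ × ((ℕ × ℕ) × ℕ)) × (ℕ × ℕ) =>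
      z.1.1) := Primrec.fst.comp Primrec.fst
  have i3 : Primrec (fun z : (ℕ × List ℕ) × List (List ℕ × ℕ) × (ℕ × ((ℕ × ℕ) × ℕ)) × (ℕ × ℕ) =>
      z.1.2) := Primrec.snd.comp Primrec.fst
  have i4 : Primrec (fun z : (ℕ × List ℕ) × List (List ℕ × ℕ) × (ℕ × ((ℕ × ℕ) × ℕ)) × (ℕ × ℕ) =>
      z.2.2.1.1) := Primrec.fst.comp (Primrec.fst.comp (Primrec.snd.comp Primrec.snd))
  have i5 : Primrec (fun z : (ℕ × List ℕ) × List (List ℕ × ℕ) × (ℕ × ((ℕ × ℕ) × ℕ)) × (ℕ × ℕ) =>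
      z.2.2.1.2) := Primrec.snd.comp (Primrec.fst.comp (Primrec.snd.comp Primrec.snd))
  have i6 : Primrec (fun z : (ℕ × List ℕ) × List (List ℕ × ℕ) × (ℕ × ((ℕ × ℕ) × ℕ)) × (ℕ × ℕ) =>
      z.2.2.2) := Primrec.snd.comp (Primrec.snd.comp Primrec.snd)
  have g0 : Primrec (fun z : (ℕ × List ℕ) × List (List ℕ × ℕ) × (ℕ × ((ℕ × ℕ) × ℕ)) × (ℕ × ℕ) =>
      z.2.1.getD 0 dflt) := (Primrec.list_getD dflt).comp i1 (Primrec.const 0)
  have g1 : Primrec (fun z : (ℕ × List ℕ) × List (List ℕ × ℕ) × (ℕ × ((ℕ × ℕ) × ℕ)) × (ℕ × ℕ) =>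
      z.2.1.getD z.1.1 dflt) := (Primrec.list_getD dflt).comp i1 i2
  have g2 : Primrec (fun z : (ℕ × List ℕ) × List (List ℕ × ℕ) × (ℕ × ((ℕ × ℕ) × ℕ)) × (ℕ × ℕ) =>
      z.2.1.getD z.2.2.1.1 dflt) := (Primrec.list_getD dflt).comp i1 i4
  have g3 : Primrec (fun z : (ℕ × List ℕ) × List (List ℕ × ℕ) × (ℕ × ((ℕ × ℕ) × ℕ)) × (ℕ × ℕ) =>
      z.2.1.getD (z.2.2.1.1 + 1) dflt) :=
    (Primrec.list_getD dflt).comp i1 (Primrec.succ.comp i4)
  refine Primrec.and.comp (Primrec.eq.comp (Primrec.fst.comp g0) (Primrec.const [])).decide ?_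
  refine Primrec.and.comp (Primrec.eq.comp (Primrec.fst.comp g1) i3).decide ?_
  refine Primrec.or.comp (PrimrecPred.not (Primrec.nat_lt.comp i4 i2)).decide ?_
  refine Primrec.and.comp (Primrec.eq.comp (Primrec.fst.comp g3) (stp_prim.comp g2)).decide ?_
  exact vm_prim.comp ((i4.pair g2).pair (i5.pair i6))

theorem S3_graph : S3 (fun z : ℕ × List ℕ => st z.1 = z.2) := by
  refine S3.mk (A := List (List ℕ × ℕ)) (B := ℕ × ((ℕ × ℕ) × ℕ)) (C := ℕ × ℕ) grm
    grm_prim.to_comp ?_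
  rintro ⟨s, τ⟩
  constructor
  · intro h
    change st s = τ at h
    let L : List (List ℕ × ℕ) := (List.range (s + 1)).map fun i => (st i, ch i (st i))
    have hL : ∀ i, i < s + 1 → L.getD i dflt = (st i, ch i (st i)) := by
      intro i hi
      rw [List.getD_eq_getElem?_getD]
      simp only [L, List.getElem?_map]
      rw [List.getElem?_range hi]
      rfl
    refine ⟨L, fun b => ?_⟩
    by_cases hb : b.1 < s
    · obtain ⟨c, hc⟩ := (valid_iff b.1 (st b.1) (ch b.1 (st b.1))).2 rfl b.2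
      refine ⟨c, ?_⟩
      simp only [grm, Bool.and_eq_true, Bool.or_eq_true, decide_eq_true_eq]
      rw [hL 0 (Nat.succ_pos s), hL s (Nat.lt_succ_self s), hL b.1 (by omega),
        hL (b.1 + 1) (by omega)]
      exact ⟨rfl, h, Or.inr ⟨rfl, hc⟩⟩
    · refine ⟨(0, 0), ?_⟩
      simp only [grm, Bool.and_eq_true, Bool.or_eq_true, decide_eq_true_eq]
      rw [hL 0 (Nat.succ_pos s), hL s (Nat.lt_succ_self s)]
      exact ⟨rfl, h, Or.inl hb⟩
  · rintro ⟨L, hL⟩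
    simp only [grm, Bool.and_eq_true, Bool.or_eq_true, decide_eq_true_eq] at hL
    have h0 : (L.getD 0 dflt).1 = [] := by
      obtain ⟨c, hc⟩ := hL (0, ((0, 0), 0))
      exact hc.1
    have hs : (L.getD s dflt).1 = τ := by
      obtain ⟨c, hc⟩ := hL (0, ((0, 0), 0))
      exact hc.2.1
    have hstep : ∀ i, i < s → (L.getD (i + 1) dflt).1 = stp (L.getD i dflt) ∧
        (L.getD i dflt).2 = ch i (L.getD i dflt).1 := by
      intro i hi
      refine ⟨?_, ?_⟩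
      · obtain ⟨c, hc⟩ := hL (i, ((0, 0), 0))
        rcases hc.2.2 with h | h
        · exact absurd hi h
        · exact h.1
      · refine (valid_iff i (L.getD i dflt).1 (L.getD i dflt).2).1 fun b => ?_
        obtain ⟨c, hc⟩ := hL (i, b)
        rcases hc.2.2 with h | h
        · exact absurd hi h
        · exact ⟨c, h.2⟩
    have hind : ∀ i, i ≤ s → (L.getD i dflt).1 = st i := by
      intro i
      induction i with
      | zero => intro _; rw [h0]; rfl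
      | succ i ih =>
        intro hi
        have h1 := ih (by omega)
        obtain ⟨h2, h3⟩ := hstep i (by omega)
        rw [h2]
        change _ = stp (st i, ch i (st i))
        congr 1
        rw [← h1]
        exact Prod.ext rfl h3
    change st s = τ
    rw [← hind s le_rfl, hs]

/-- Being an initial segment of the generic. -/
theorem S3_pref : S3 (fun σ : List ℕ => ∃ k, σ = seg gen k) := by
  have h1 : S3 (fun x : (List ℕ × ℕ) × List ℕ => st x.1.2 = x.2) :=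
    S3_graph.comp (f := fun x : (List ℕ × ℕ) × List ℕ => (x.1.2, x.2))
      (cpair (Computable.snd.comp Computable.fst) Computable.snd)
  have h2 : S3 (fun x : (List ℕ × ℕ) × List ℕ => pre (x.1.1, x.2) = true) := by
    refine ⟨fun z => pre (z.1.1.1, z.1.2), ?_, fun x => by simp⟩
    exact (pre_prim.comp ((Primrec.fst.comp (Primrec.fst.comp Primrec.fst)).pair
      (Primrec.snd.comp Primrec.fst))).to_comp
  have h3 := (h1.and h2).ex.ex
  refine h3.of_iff fun σ => ?_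
  rw [← pref_iff]
  constructor
  · rintro ⟨s, hs⟩
    exact ⟨s, st s, rfl, (pre_iff _ _).2 hs⟩
  · rintro ⟨s, τ, h4, h5⟩
    refine ⟨s, ?_⟩
    have h6 := (pre_iff _ _).1 h5
    rw [h4]
    exact h6

/-- Lowness of the generic. -/
theorem gen_low (R : ℕ → ℕ)
    (hR : TuringReducible (fun m => Part.some (R m)) (fun m => Part.some (gen m))) :
    S3 (fun n => ∃ a : ℕ, ∀ b : ℕ, R (Nat.pair n (Nat.pair a b)) = 0) ∧
    S3 (fun n => ¬ ∃ a : ℕ, ∀ b : ℕ, R (Nat.pair n (Nat.pair a b)) = 0) := by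
  obtain ⟨F, hF, hU⟩ := exists_use gen (fun m => Part.some (R m)) (RecursiveIn.iff_nat.1 hR)
  have h2 : Nat.Partrec (fun n => Part.bind (decode (α := List ℕ × ℕ) n : Part _)
      fun (a : List ℕ × ℕ) => F a.1 a.2) := by
    refine Nat.Partrec.of_eq hF fun n => ?_
    simp [Part.map_id']
  obtain ⟨c, hc⟩ := exists_code.1 h2
  have key : ∀ ρ m, eval c (encode (ρ, m)) = F ρ m := by
    intro ρ m
    rw [hc]
    simp
  let nz : List ℕ × ℕ × ℕ → Bool := fun z =>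
    decide (¬ (evaln z.2.2 c (encode (z.1, z.2.1))).getD 0 = 0)
  have hnz : Primrec nz := by
    refine (PrimrecPred.not (Primrec.eq.comp (Primrec.option_getD.comp ?_ (Primrec.const 0))
      (Primrec.const 0))).decide
    exact primrec_evaln.comp (Primrec.pair (Primrec.pair
      (Primrec.snd.comp Primrec.snd) (Primrec.const c))
      (Primrec.encode.comp (Primrec.pair Primrec.fst (Primrec.fst.comp Primrec.snd))))
  have nz_iff : ∀ ρ m, (∃ t, nz (ρ, m, t) = true) ↔ ∃ v, v ≠ 0 ∧ v ∈ F ρ m := by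
    intro ρ m
    constructor
    · rintro ⟨t, ht⟩
      simp only [nz, decide_eq_true_eq] at ht
      cases he : evaln t c (encode (ρ, m)) with
      | none => rw [he] at ht; exact absurd rfl ht
      | some v =>
        rw [he] at ht
        refine ⟨v, ht, ?_⟩
        rw [← key]
        exact evaln_sound he
    · rintro ⟨v, hv, hv'⟩
      rw [← key] at hv'
      obtain ⟨t, ht⟩ := evaln_complete.1 hv'
      refine ⟨t, ?_⟩
      have ht' : evaln t c (encode (ρ, m)) = some v := ht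
      simp only [nz, decide_eq_true_eq, ht']
      simpa using hv
  -- the forcing set
  let V : ℕ × List ℕ → Prop := fun x => ∃ a, ∀ ρ b t, x.2 <+: ρ →
    nz (ρ, Nat.pair x.1 (Nat.pair a b), t) = false
  have hV : S2 V := by
    refine S2.mk (A := ℕ) (B := List ℕ × ℕ × ℕ) (fun z =>
      !(pre (z.1.2, z.2.2.1)) || !(nz (z.2.2.1, Nat.pair z.1.1 (Nat.pair z.2.1 z.2.2.2.1),
        z.2.2.2.2))) ?_ fun x => ?_
    · have j1 : Primrec (fun z : (ℕ × List ℕ) × ℕ × List ℕ × ℕ × ℕ => z.2.2.1) :=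
        Primrec.fst.comp (Primrec.snd.comp Primrec.snd)
      have j2 : Primrec (fun z : (ℕ × List ℕ) × ℕ × List ℕ × ℕ × ℕ => z.1.2) :=
        Primrec.snd.comp Primrec.fst
      have j3 : Primrec (fun z : (ℕ × List ℕ) × ℕ × List ℕ × ℕ × ℕ => z.1.1) :=
        Primrec.fst.comp Primrec.fst
      have j4 : Primrec (fun z : (ℕ × List ℕ) × ℕ × List ℕ × ℕ × ℕ => z.2.1) :=
        Primrec.fst.comp Primrec.snd
      have j5 : Primrec (fun z : (ℕ × List ℕ) × ℕ × List ℕ × ℕ × ℕ => z.2.2.2.1) :=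
        Primrec.fst.comp (Primrec.snd.comp (Primrec.snd.comp Primrec.snd))
      have j6 : Primrec (fun z : (ℕ × List ℕ) × ℕ × List ℕ × ℕ × ℕ => z.2.2.2.2) :=
        Primrec.snd.comp (Primrec.snd.comp (Primrec.snd.comp Primrec.snd))
      exact (Primrec.or.comp (Primrec.not.comp (pre_prim.comp (j2.pair j1)))
        (Primrec.not.comp (hnz.comp (j1.pair ((Primrec₂.natPair.comp j3
          (Primrec₂.natPair.comp j4 j5)).pair j6))))).to_comp
    · refine exists_congr fun a => ?_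
      constructor
      · rintro h ⟨ρ, b, t⟩
        by_cases hpr : pre (x.2, ρ) = true
        · simp [h ρ b t ((pre_iff _ _).1 hpr)]
        · simp [hpr]
      · intro h ρ b t hρ
        have := h (ρ, b, t)
        simpa [(pre_iff _ _).2 hρ] using this
  -- the basic dichotomy
  have hpos : ∀ n k, V (n, seg gen k) → ∃ a : ℕ, ∀ b : ℕ, R (Nat.pair n (Nat.pair a b)) = 0 := by
    rintro n k ⟨a, ha⟩
    refine ⟨a, fun b => ?_⟩
    by_contra hne
    obtain ⟨k', hk'⟩ := (hU.spec (Nat.pair n (Nat.pair a b)) _).1 (Part.mem_some _)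
    have h1 := use_aux_mono hU (le_max_right k k') hk'
    obtain ⟨t, ht⟩ := (nz_iff _ _).2 ⟨_, hne, h1⟩
    have h3 := ha _ b t (seg_prefix gen (le_max_left k k'))
    rw [h3] at ht
    exact absurd ht (by simp)
  have hneg : ∀ n k, (∀ ρ, seg gen k <+: ρ → ¬ V (n, ρ)) →
      ¬ ∃ a : ℕ, ∀ b : ℕ, R (Nat.pair n (Nat.pair a b)) = 0 := by
    rintro n k hk ⟨a, ha⟩
    have hD : S2 (fun τ : List ℕ => ∃ u : ℕ × ℕ,
        nz (τ, Nat.pair n (Nat.pair a u.1), u.2) = true) := by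
      refine S2.mk (A := ℕ × ℕ) (B := ℕ) (fun z =>
        nz (z.1, Nat.pair n (Nat.pair a z.2.1.1), z.2.1.2)) ?_ fun x => by simp
      exact (hnz.comp (Primrec.fst.pair ((Primrec₂.natPair.comp (Primrec.const n)
        (Primrec₂.natPair.comp (Primrec.const a)
          (Primrec.fst.comp (Primrec.fst.comp Primrec.snd)))).pair
        (Primrec.snd.comp (Primrec.fst.comp Primrec.snd))))).to_comp
    rcases generic hD with ⟨k', ⟨b, t⟩, hbt⟩ | ⟨k', hk'⟩
    · obtain ⟨v, hv, hv'⟩ := (nz_iff _ _).1 ⟨t, hbt⟩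
      have h1 := (hU.spec (Nat.pair n (Nat.pair a b)) v).2 ⟨k', hv'⟩
      rw [Part.mem_some_iff] at h1
      exact hv (h1.trans (ha b))
    · refine hk (seg gen (max k k')) (seg_prefix gen (le_max_left _ _)) ⟨a, fun ρ b t hρ => ?_⟩
      have h1 := hk' ρ ((seg_prefix gen (le_max_right k k')).trans hρ)
      by_contra hcon
      exact h1 ⟨(b, t), by simpa using hcon⟩
  have hdich : ∀ n, (∃ k, V (n, seg gen k)) ∨ ∃ k, ∀ ρ, seg gen k <+: ρ → ¬ V (n, ρ) := by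
    intro n
    exact generic (p := fun τ => V (n, τ)) (hV.comp (f := fun τ : List ℕ => (n, τ))
      (cpair (Computable.const n) Computable.id))
  constructor
  · have h1 : S3 (fun x : ℕ × List ℕ => (∃ k, x.2 = seg gen k) ∧ V x) :=
      (S3_pref.comp Computable.snd).and (S3.ofS2 hV)
    refine h1.ex.of_iff fun n => ?_
    constructor
    · intro h
      rcases hdich n with ⟨k, hk⟩ | ⟨k, hk⟩
      · exact ⟨seg gen k, ⟨k, rfl⟩, hk⟩
      · exact absurd h (hneg n k hk)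
    · rintro ⟨σ, ⟨k, rfl⟩, hσ⟩
      exact hpos n k hσ
  · have h1 : S3 (fun x : ℕ × List ℕ => ∀ ρ : List ℕ, pre (x.2, ρ) = true → ¬ V (x.1, ρ)) := by
      refine S3.allNot (p := fun y : (ℕ × List ℕ) × List ℕ => V (y.1.1, y.2)) ?_
        (fun y => pre (y.1.2, y.2)) ?_
      · exact hV.comp (f := fun y : (ℕ × List ℕ) × List ℕ => (y.1.1, y.2))
          (cpair (Computable.fst.comp Computable.fst) Computable.snd)
      · exact (pre_prim.comp ((Primrec.snd.comp Primrec.fst).pair Primrec.snd)).to_comp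
    have h2 : S3 (fun x : ℕ × List ℕ => (∃ k, x.2 = seg gen k) ∧
        ∀ ρ : List ℕ, pre (x.2, ρ) = true → ¬ V (x.1, ρ)) :=
      (S3_pref.comp Computable.snd).and h1
    refine h2.ex.of_iff fun n => ?_
    constructor
    · intro h
      rcases hdich n with ⟨k, hk⟩ | ⟨k, hk⟩
      · exact absurd (hpos n k hk) h
      · exact ⟨seg gen k, ⟨k, rfl⟩, fun ρ hρ => hk ρ ((pre_iff _ _).1 hρ)⟩
    · rintro ⟨σ, ⟨k, rfl⟩, hσ⟩
      exact hneg n k fun ρ hρ => hσ ρ ((pre_iff _ _).2 hρ)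

end Pool.Agent.Helper90.Sol
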