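import Pool.Agent.Helper90.Sol.Use

set_option autoImplicit false

namespace Pool.Agent.Helper90.Sol

open Encodable

/-- `∃ ∀` over a computable matrix. -/
def S2 {α : Type} [Primcodable α] (p : α → Prop) : Prop :=
  ∃ R : α × ℕ × ℕ → Bool, Computable R ∧ ∀ x, p x ↔ ∃ a, ∀ b, R (x, a, b) = true

/-- `∃ ∀ ∃` over a computable matrix. -/
def S3 {α : Type} [Primcodable α] (p : α → Prop) : Prop :=
  ∃ R : α × ℕ × ℕ × ℕ → Bool, Computable R ∧
    ∀ x, p x ↔ ∃ a, ∀ b, ∃ c, R (x, a, b, c) = true

theorem cpair {α β γ : Type} [Primcodable α] [Primcodable β] [Primcodable γ]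
    {f : α → β} {g : α → γ} (hf : Computable f) (hg : Computable g) :
    Computable fun x => (f x, g x) := hf.pair hg

theorem S2.mk {α A B : Type} [Primcodable α] [Primcodable A] [Primcodable B]
    {p : α → Prop} (R : α × A × B → Bool) (hR : Computable R)
    (h : ∀ x, p x ↔ ∃ a : A, ∀ b : B, R (x, a, b) = true) : S2 p := by
  let R' : α × ℕ × ℕ → Bool := fun z =>
    ((decode (α := A) z.2.1).map fun a =>
      (((decode (α := B) z.2.2).map fun b => R (z.1, a, b)).getD true)).getD false
  refine ⟨R', ?_, fun x => ?_⟩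
  · refine Computable.option_getD ?_ (Computable.const false)
    refine Computable.option_map (Computable.decode.comp (Computable.fst.comp Computable.snd)) ?_
    refine Computable.option_getD ?_ (Computable.const true)
    refine Computable.option_map (Computable.decode.comp
      (Computable.snd.comp (Computable.snd.comp Computable.fst))) ?_
    exact hR.comp (cpair (Computable.fst.comp (Computable.fst.comp Computable.fst))
      (cpair (Computable.snd.comp Computable.fst) Computable.snd))
  · rw [h]
    constructor
    · rintro ⟨a, ha⟩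
      refine ⟨encode a, fun b => ?_⟩
      simp only [R', encodek, Option.map_some, Option.getD_some]
      cases hb : decode (α := B) b with
      | none => rfl
      | some b' => simpa using ha b'
    · rintro ⟨a, ha⟩
      cases hd : decode (α := A) a with
      | none =>
        have := ha 0
        simp [R', hd] at this
      | some a' =>
        refine ⟨a', fun b => ?_⟩
        have := ha (encode b)
        simpa [R', hd] using this

theorem S3.mk {α A B C : Type} [Primcodable α] [Primcodable A] [Primcodable B] [Primcodable C]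
    {p : α → Prop} (R : α × A × B × C → Bool) (hR : Computable R)
    (h : ∀ x, p x ↔ ∃ a : A, ∀ b : B, ∃ c : C, R (x, a, b, c) = true) : S3 p := by
  let R' : α × ℕ × ℕ × ℕ → Bool := fun z =>
    ((decode (α := A) z.2.1).map fun a =>
      (((decode (α := B) z.2.2.1).map fun b =>
        (((decode (α := C) z.2.2.2).map fun c =>
          R (z.1, a, b, c)).getD false)).getD true)).getD false
  refine ⟨R', ?_, fun x => ?_⟩
  · refine Computable.option_getD ?_ (Computable.const false)
    refine Computable.option_map (Computable.decode.comp (Computable.fst.comp Computable.snd)) ?_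
    refine Computable.option_getD ?_ (Computable.const true)
    refine Computable.option_map (Computable.decode.comp
      (Computable.fst.comp (Computable.snd.comp (Computable.snd.comp Computable.fst)))) ?_
    refine Computable.option_getD ?_ (Computable.const false)
    refine Computable.option_map (Computable.decode.comp
      (Computable.snd.comp (Computable.snd.comp (Computable.snd.comp
        (Computable.fst.comp Computable.fst))))) ?_
    exact hR.comp (cpair (Computable.fst.comp (Computable.fst.comp (Computable.fst.comp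
      Computable.fst)))
      (cpair (Computable.snd.comp (Computable.fst.comp Computable.fst))
        (cpair (Computable.snd.comp Computable.fst) Computable.snd)))
  · rw [h]
    constructor
    · rintro ⟨a, ha⟩
      refine ⟨encode a, fun b => ?_⟩
      cases hb : decode (α := B) b with
      | none => exact ⟨0, by simp [R', hb]⟩
      | some b' =>
        obtain ⟨c, hc⟩ := ha b'
        exact ⟨encode c, by simpa [R', hb] using hc⟩
    · rintro ⟨a, ha⟩
      cases hd : decode (α := A) a with
      | none =>
        obtain ⟨c, hc⟩ := ha 0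
        simp [R', hd] at hc
      | some a' =>
        refine ⟨a', fun b => ?_⟩
        obtain ⟨c, hc⟩ := ha (encode b)
        cases hc' : decode (α := C) c with
        | none => simp [R', hd, hc'] at hc
        | some c' => exact ⟨c', by simpa [R', hd, hc'] using hc⟩

theorem S3.ofS2 {α : Type} [Primcodable α] {p : α → Prop} (h : S2 p) : S3 p := by
  obtain ⟨R, hR, hp⟩ := h
  refine ⟨fun z => R (z.1, z.2.1, z.2.2.1), ?_, fun x => ?_⟩
  · exact hR.comp (cpair Computable.fst (cpair (Computable.fst.comp Computable.snd)
      (Computable.fst.comp (Computable.snd.comp Computable.snd))))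
  · rw [hp]
    exact ⟨fun ⟨a, ha⟩ => ⟨a, fun b => ⟨0, ha b⟩⟩,
      fun ⟨a, ha⟩ => ⟨a, fun b => (ha b).elim fun _ h => h⟩⟩

theorem S3.and {α : Type} [Primcodable α] {p q : α → Prop} (hp : S3 p) (hq : S3 q) :
    S3 (fun x => p x ∧ q x) := by
  obtain ⟨R, hR, hp⟩ := hp
  obtain ⟨R', hR', hq⟩ := hq
  refine S3.mk (A := ℕ × ℕ) (B := ℕ) (C := ℕ × ℕ)
    (fun z => R (z.1, z.2.1.1, z.2.2.1, z.2.2.2.1) && R' (z.1, z.2.1.2, z.2.2.1, z.2.2.2.2))
    ?_ fun x => ?_
  · have h1 : Computable (fun z : α × (ℕ × ℕ) × ℕ × (ℕ × ℕ) =>
        R (z.1, z.2.1.1, z.2.2.1, z.2.2.2.1)) :=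
      hR.comp (cpair Computable.fst (cpair
        (Computable.fst.comp (Computable.fst.comp Computable.snd))
        (cpair (Computable.fst.comp (Computable.snd.comp Computable.snd))
          (Computable.fst.comp (Computable.snd.comp (Computable.snd.comp Computable.snd))))))
    have h2 : Computable (fun z : α × (ℕ × ℕ) × ℕ × (ℕ × ℕ) =>
        R' (z.1, z.2.1.2, z.2.2.1, z.2.2.2.2)) :=
      hR'.comp (cpair Computable.fst (cpair
        (Computable.snd.comp (Computable.fst.comp Computable.snd))
        (cpair (Computable.fst.comp (Computable.snd.comp Computable.snd))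
          (Computable.snd.comp (Computable.snd.comp (Computable.snd.comp Computable.snd))))))
    exact Primrec.and.to_comp.comp h1 h2
  · rw [hp, hq]
    constructor
    · rintro ⟨⟨a, ha⟩, ⟨a', ha'⟩⟩
      refine ⟨(a, a'), fun b => ?_⟩
      obtain ⟨c, hc⟩ := ha b
      obtain ⟨c', hc'⟩ := ha' b
      exact ⟨(c, c'), by simp [hc, hc']⟩
    · rintro ⟨⟨a, a'⟩, h⟩
      refine ⟨⟨a, fun b => ?_⟩, ⟨a', fun b => ?_⟩⟩
      · obtain ⟨⟨c, c'⟩, hc⟩ := h b
        simp only [Bool.and_eq_true] at hc
        exact ⟨c, hc.1⟩
      · obtain ⟨⟨c, c'⟩, hc⟩ := h b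
        simp only [Bool.and_eq_true] at hc
        exact ⟨c', hc.2⟩

theorem S3.ex {α β : Type} [Primcodable α] [Primcodable β] {p : α × β → Prop} (hp : S3 p) :
    S3 (fun x => ∃ y, p (x, y)) := by
  obtain ⟨R, hR, hp⟩ := hp
  refine S3.mk (A := β × ℕ) (B := ℕ) (C := ℕ)
    (fun z => R ((z.1, z.2.1.1), z.2.1.2, z.2.2.1, z.2.2.2)) ?_ fun x => ?_
  · exact hR.comp (cpair (cpair Computable.fst
      (Computable.fst.comp (Computable.fst.comp Computable.snd)))
      (cpair (Computable.snd.comp (Computable.fst.comp Computable.snd))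
        (cpair (Computable.fst.comp (Computable.snd.comp Computable.snd))
          (Computable.snd.comp (Computable.snd.comp Computable.snd)))))
  · constructor
    · rintro ⟨y, hy⟩
      obtain ⟨a, ha⟩ := (hp _).1 hy
      exact ⟨(y, a), ha⟩
    · rintro ⟨⟨y, a⟩, h⟩
      exact ⟨y, (hp _).2 ⟨a, h⟩⟩

theorem S3.comp {α β : Type} [Primcodable α] [Primcodable β] {p : β → Prop} (hp : S3 p)
    {f : α → β} (hf : Computable f) : S3 (fun x => p (f x)) := by
  obtain ⟨R, hR, hp⟩ := hp
  refine ⟨fun z => R (f z.1, z.2), ?_, fun x => hp (f x)⟩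
  exact hR.comp (cpair (hf.comp Computable.fst) Computable.snd)

theorem S2.comp {α β : Type} [Primcodable α] [Primcodable β] {p : β → Prop} (hp : S2 p)
    {f : α → β} (hf : Computable f) : S2 (fun x => p (f x)) := by
  obtain ⟨R, hR, hp⟩ := hp
  refine ⟨fun z => R (f z.1, z.2), ?_, fun x => hp (f x)⟩
  exact hR.comp (cpair (hf.comp Computable.fst) Computable.snd)

theorem S3.of_iff {α : Type} [Primcodable α] {p q : α → Prop} (hp : S3 p)
    (h : ∀ x, q x ↔ p x) : S3 q := by
  obtain ⟨R, hR, hp⟩ := hp
  exact ⟨R, hR, fun x => (h x).trans (hp x)⟩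

theorem S2.of_iff {α : Type} [Primcodable α] {p q : α → Prop} (hp : S2 p)
    (h : ∀ x, q x ↔ p x) : S2 q := by
  obtain ⟨R, hR, hp⟩ := hp
  exact ⟨R, hR, fun x => (h x).trans (hp x)⟩

/-- A guarded universal quantification of the negation of an `S2` predicate is `S3`. -/
theorem S3.allNot {α β : Type} [Primcodable α] [Primcodable β] {p : α × β → Prop} (hp : S2 p)
    (G : α × β → Bool) (hG : Computable G) :
    S3 (fun x => ∀ y, G (x, y) = true → ¬ p (x, y)) := by
  obtain ⟨R, hR, hp⟩ := hp
  refine S3.mk (A := ℕ) (B := β × ℕ) (C := ℕ)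
    (fun z => !(G (z.1, z.2.2.1.1)) || !(R ((z.1, z.2.2.1.1), z.2.2.1.2, z.2.2.2)))
    ?_ fun x => ?_
  · have h1 : Computable (fun z : α × ℕ × (β × ℕ) × ℕ => !(G (z.1, z.2.2.1.1))) :=
      Primrec.not.to_comp.comp (hG.comp (cpair Computable.fst
        (Computable.fst.comp (Computable.fst.comp (Computable.snd.comp Computable.snd)))))
    have h2 : Computable (fun z : α × ℕ × (β × ℕ) × ℕ =>
        !(R ((z.1, z.2.2.1.1), z.2.2.1.2, z.2.2.2))) :=
      Primrec.not.to_comp.comp (hR.comp (cpair (cpair Computable.fst
        (Computable.fst.comp (Computable.fst.comp (Computable.snd.comp Computable.snd))))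
        (cpair (Computable.snd.comp (Computable.fst.comp (Computable.snd.comp Computable.snd)))
          (Computable.snd.comp (Computable.snd.comp Computable.snd)))))
    exact Primrec.or.to_comp.comp h1 h2
  · constructor
    · intro h
      refine ⟨0, fun b => ?_⟩
      obtain ⟨y, a⟩ := b
      by_cases hg : G (x, y) = true
      · have := h y hg
        rw [hp] at this
        push Not at this
        obtain ⟨b, hb⟩ := this a
        exact ⟨b, by simp [hg]; simpa using hb⟩
      · exact ⟨0, by simp [hg]⟩
    · rintro ⟨_, h⟩ y hg hpy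
      obtain ⟨a, ha⟩ := (hp _).1 hpy
      obtain ⟨c, hc⟩ := h (y, a)
      simp [hg, ha c] at hc

/-- Passing to the coded form used in the statement. -/
theorem S3.toNat {p : ℕ → Prop} (hp : S3 p) :
    ∃ S : ℕ → ℕ, Computable S ∧ ∀ n, p n ↔
      ∃ a : ℕ, ∀ b : ℕ, ∃ c : ℕ, S (Nat.pair n (Nat.pair a (Nat.pair b c))) = 0 := by
  obtain ⟨R, hR, hp⟩ := hp
  refine ⟨fun z => bif R (z.unpair.1, z.unpair.2.unpair.1, z.unpair.2.unpair.2.unpair.1,
    z.unpair.2.unpair.2.unpair.2) then 0 else 1, ?_, fun n => ?_⟩
  · refine Computable.cond (hR.comp ?_) (Computable.const 0) (Computable.const 1)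
    have u := Computable.unpair
    exact cpair (Computable.fst.comp u) (cpair (Computable.fst.comp (u.comp (Computable.snd.comp u)))
      (cpair (Computable.fst.comp (u.comp (Computable.snd.comp (u.comp (Computable.snd.comp u)))))
        (Computable.snd.comp (u.comp (Computable.snd.comp (u.comp (Computable.snd.comp u)))))))
  · rw [hp]
    refine exists_congr fun a => forall_congr' fun b => exists_congr fun c => ?_
    simp only [Nat.unpair_pair]
    cases R (n, a, b, c) <;> simp

end Pool.Agent.Helper90.Sol
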