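import Pool.Agent.Helper90.Sol.Arith

set_option autoImplicit false

namespace Pool.Agent.Helper90.Sol

open Encodable
open Nat.Partrec (Code)
open Nat.Partrec.Code

/-- Decode a string. -/
def str (n : ℕ) : List ℕ := (decode (α := List ℕ) n).getD []

theorem str_encode (σ : List ℕ) : str (encode σ) = σ := by simp [str]

theorem str_prim : Primrec str :=
  Primrec.option_getD.comp Primrec.decode (Primrec.const [])

/-- Prefix test. -/
def pre (z : List ℕ × List ℕ) : Bool := decide (z.2.take z.1.length = z.1)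

theorem pre_iff (σ τ : List ℕ) : pre (σ, τ) = true ↔ σ <+: τ := by
  simp only [pre, decide_eq_true_eq, List.prefix_iff_eq_take]
  exact eq_comm

theorem pre_prim : Primrec pre :=
  Primrec.eq.decide.comp (Primrec.list_take.comp (Primrec.list_length.comp Primrec.fst)
    Primrec.snd) Primrec.fst

/-- Matrix of a universal family: arguments are the index, the string, the
outer witness, the inner argument and the time bound. -/
def mat (z : ℕ × List ℕ × ℕ × ℕ × ℕ) : Bool :=
  decide (¬ evaln z.2.2.2.2 (Denumerable.ofNat Code z.1)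
    (encode (z.2.1, z.2.2.1, z.2.2.2.1)) = some 0)

theorem mat_prim : Primrec mat := by
  unfold mat
  refine (PrimrecPred.not ?_).decide
  refine Primrec.eq.comp ?_ (Primrec.const (some 0))
  refine primrec_evaln.comp (Primrec.pair (Primrec.pair ?_ ?_) ?_)
  · exact Primrec.snd.comp (Primrec.snd.comp (Primrec.snd.comp Primrec.snd))
  · exact (Primrec.ofNat Code).comp Primrec.fst
  · exact Primrec.encode.comp (Primrec.pair (Primrec.fst.comp Primrec.snd)
      (Primrec.pair (Primrec.fst.comp (Primrec.snd.comp Primrec.snd))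
        (Primrec.fst.comp (Primrec.snd.comp (Primrec.snd.comp Primrec.snd)))))

theorem mat_universal {p : List ℕ → Prop} (hp : S2 p) :
    ∃ e, ∀ σ, p σ ↔ ∃ a, ∀ u : ℕ × ℕ, mat (e, σ, a, u.1, u.2) = true := by
  obtain ⟨R, hR, hp⟩ := hp
  have h1 : Partrec (fun z : List ℕ × ℕ × ℕ => (Part.some (encode (R z)) : Part ℕ)) :=
    (Computable.encode.comp hR).partrec
  have h2 : Nat.Partrec (fun n => Part.bind (decode (α := List ℕ × ℕ × ℕ) n : Part _)
      fun a => Part.some (encode (R a))) := by
    refine Nat.Partrec.of_eq h1 fun n => ?_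
    simp
  obtain ⟨c, hc⟩ := exists_code.1 h2
  refine ⟨encode c, fun σ => ?_⟩
  rw [hp]
  refine exists_congr fun a => ?_
  have key : ∀ b, eval c (encode (σ, a, b)) = Part.some (encode (R (σ, a, b))) := by
    intro b
    rw [hc]
    simp
  constructor
  · intro h u
    simp only [mat, Denumerable.ofNat_encode, decide_eq_true_eq]
    intro hcon
    have h3 : (0 : ℕ) ∈ eval c (encode (σ, a, u.1)) := evaln_sound hcon
    rw [key, h u.1] at h3
    simp at h3
  · intro h b
    by_contra hcon
    have hf : R (σ, a, b) = false := by simpa using hcon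
    have h3 : (0 : ℕ) ∈ eval c (encode (σ, a, b)) := by
      rw [key, hf]; simp
    obtain ⟨k, hk⟩ := evaln_complete.1 h3
    have := h (b, k)
    simp only [mat, Denumerable.ofNat_encode, decide_eq_true_eq] at this
    exact this hk

/-- Matrix of the search predicate. -/
def Qm (z : ℕ × List ℕ × ℕ × ℕ × ℕ) : Bool :=
  pre (z.2.1, str z.2.2.1.unpair.1) &&
    mat (z.1, str z.2.2.1.unpair.1, z.2.2.1.unpair.2, z.2.2.2.1, z.2.2.2.2)

theorem Qm_prim : Primrec Qm := by
  unfold Qm
  have hp : Primrec (fun z : ℕ × List ℕ × ℕ × ℕ × ℕ => z.2.2.1) :=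
    Primrec.fst.comp (Primrec.snd.comp Primrec.snd)
  have hu := Primrec.unpair.comp hp
  have hs := str_prim.comp (Primrec.fst.comp hu)
  refine Primrec.and.comp (pre_prim.comp (Primrec.pair (Primrec.fst.comp Primrec.snd) hs)) ?_
  refine mat_prim.comp (Primrec.pair Primrec.fst (Primrec.pair hs (Primrec.pair
    (Primrec.snd.comp hu) (Primrec.pair ?_ ?_))))
  · exact Primrec.fst.comp (Primrec.snd.comp (Primrec.snd.comp Primrec.snd))
  · exact Primrec.snd.comp (Primrec.snd.comp (Primrec.snd.comp Primrec.snd))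

/-- The search predicate. -/
def Q (s : ℕ) (σ : List ℕ) (p : ℕ) : Prop := ∀ u : ℕ × ℕ, Qm (s, σ, p, u.1, u.2) = true

open Classical in
/-- The choice made at a stage. -/
noncomputable def ch (s : ℕ) (σ : List ℕ) : ℕ :=
  if h : ∃ p, Q s σ p then Nat.find h + 1 else 0

/-- One step of the construction, given the choice. -/
def stp (z : List ℕ × ℕ) : List ℕ :=
  if z.2 = 0 then z.1 ++ [0] else str (z.2 - 1).unpair.1 ++ [0]

theorem stp_prim : Primrec stp := by
  unfold stp
  refine Primrec.ite (Primrec.eq.comp Primrec.snd (Primrec.const 0)) ?_ ?_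
  · exact Primrec.list_concat.comp Primrec.fst (Primrec.const 0)
  · exact Primrec.list_concat.comp (str_prim.comp (Primrec.fst.comp (Primrec.unpair.comp
      (Primrec.nat_sub.comp Primrec.snd (Primrec.const 1))))) (Primrec.const 0)

/-- The construction. -/
noncomputable def st : ℕ → List ℕ
  | 0 => []
  | s + 1 => stp (st s, ch s (st s))

theorem Q_prefix {s : ℕ} {σ : List ℕ} {p : ℕ} (h : Q s σ p) : σ <+: str p.unpair.1 := by
  have := h (0, 0)
  simp only [Qm, Bool.and_eq_true] at this
  exact (pre_iff _ _).1 this.1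

open Classical in
theorem ch_spec {s : ℕ} {σ : List ℕ} {p : ℕ} (h : ch s σ = p + 1) :
    Q s σ p ∧ ∀ p' < p, ¬ Q s σ p' := by
  unfold ch at h
  split_ifs at h with hp
  have : Nat.find hp = p := by omega
  subst this
  exact ⟨Nat.find_spec hp, fun p' hp' => Nat.find_min hp hp'⟩

open Classical in
theorem ch_zero {s : ℕ} {σ : List ℕ} (h : ch s σ = 0) : ∀ p, ¬ Q s σ p := by
  unfold ch at h
  split_ifs at h with hp
  intro p hp'
  exact hp ⟨p, hp'⟩

theorem stp_form (s : ℕ) (σ : List ℕ) : ∃ τ, σ <+: τ ∧ stp (σ, ch s σ) = τ ++ [0] := by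
  unfold stp
  dsimp only
  split_ifs with h
  · exact ⟨σ, List.prefix_rfl, rfl⟩
  · obtain ⟨p, hp⟩ := Nat.exists_eq_succ_of_ne_zero h
    rw [hp]
    exact ⟨_, Q_prefix (ch_spec hp).1, by simp⟩

theorem st_prefix_succ (s : ℕ) : st s <+: st (s + 1) := by
  obtain ⟨τ, h1, h2⟩ := stp_form s (st s)
  change st s <+: stp (st s, ch s (st s))
  rw [h2]
  exact h1.trans (List.prefix_append _ _)

theorem st_prefix {s t : ℕ} (h : s ≤ t) : st s <+: st t := by
  induction h with
  | refl => exact List.prefix_rfl
  | step _ ih => exact ih.trans (st_prefix_succ _)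

theorem st_len (s : ℕ) : s ≤ (st s).length := by
  induction s with
  | zero => exact Nat.zero_le _
  | succ s ih =>
    obtain ⟨τ, h1, h2⟩ := stp_form s (st s)
    change s + 1 ≤ (stp (st s, ch s (st s))).length
    rw [h2, List.length_append]
    have := h1.length_le
    simp only [List.length_cons, List.length_nil]
    omega

/-- The generic function. -/
noncomputable def gen (n : ℕ) : ℕ := (st (n + 1)).getD n 0

theorem st_getElem {s n : ℕ} (h : n < (st s).length) : (st s)[n] = gen n := by
  have h1 : n < (st (n + 1)).length := lt_of_lt_of_le (Nat.lt_succ_self n) (st_len (n + 1))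
  have h2 : gen n = (st (n + 1))[n] := by
    unfold gen
    rw [List.getD_eq_getElem?_getD, List.getElem?_eq_getElem h1]
    rfl
  rw [h2]
  rcases le_total s (n + 1) with hle | hle
  · exact (st_prefix hle).getElem h
  · exact ((st_prefix hle).getElem h1).symm

theorem st_eq_seg (s : ℕ) : st s = seg gen (st s).length := by
  apply List.ext_getElem
  · rw [seg_length]
  · intro n h1 h2
    rw [st_getElem h1]
    simp [seg]

theorem seg_prefix_st (k : ℕ) : seg gen k <+: st k := by
  rw [st_eq_seg k]
  exact seg_prefix _ (st_len k)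

theorem pref_iff (σ : List ℕ) : (∃ s, σ <+: st s) ↔ ∃ k, σ = seg gen k := by
  constructor
  · rintro ⟨s, hs⟩
    rw [st_eq_seg s] at hs
    refine ⟨σ.length, ?_⟩
    have h2 : seg gen σ.length <+: seg gen (st s).length := by
      refine seg_prefix _ ?_
      have := hs.length_le
      rwa [seg_length] at this
    exact (List.prefix_of_prefix_length_le hs h2 (by rw [seg_length])).eq_of_length
      (by rw [seg_length])
  · rintro ⟨k, rfl⟩
    exact ⟨k, seg_prefix_st k⟩

/-- Genericity. -/
theorem generic {p : List ℕ → Prop} (hp : S2 p) :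
    (∃ k, p (seg gen k)) ∨ ∃ k, ∀ τ, seg gen k <+: τ → ¬ p τ := by
  obtain ⟨e, he⟩ := mat_universal hp
  rcases Nat.eq_zero_or_pos (ch e (st e)) with h0 | hpos
  · right
    refine ⟨(st e).length, fun τ hτ hpτ => ?_⟩
    rw [← st_eq_seg] at hτ
    obtain ⟨a, ha⟩ := (he τ).1 hpτ
    refine ch_zero h0 (Nat.pair (encode τ) a) fun u => ?_
    simp only [Qm, Nat.unpair_pair, str_encode, Bool.and_eq_true]
    exact ⟨(pre_iff _ _).2 hτ, ha u⟩
  · left
    obtain ⟨q, hq⟩ := Nat.exists_eq_succ_of_ne_zero hpos.ne'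
    have hQ := (ch_spec hq).1
    have h1 : st (e + 1) = str q.unpair.1 ++ [0] := by
      change stp (st e, ch e (st e)) = _
      rw [hq]
      simp [stp]
    have h2 : ∃ k, str q.unpair.1 = seg gen k :=
      (pref_iff _).1 ⟨e + 1, by rw [h1]; exact List.prefix_append _ _⟩
    obtain ⟨k, hk⟩ := h2
    refine ⟨k, ?_⟩
    rw [← hk, he]
    refine ⟨q.unpair.2, fun u => ?_⟩
    have := hQ u
    simp only [Qm, Bool.and_eq_true] at this
    exact this.2

theorem zeros_unbounded (s : ℕ) : ∃ n, s ≤ n ∧ gen n = 0 := by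
  obtain ⟨τ, h1, h2⟩ := stp_form s (st s)
  have h3 : st (s + 1) = τ ++ [0] := h2
  have hlen : s ≤ τ.length := (st_len s).trans h1.length_le
  refine ⟨τ.length, hlen, ?_⟩
  have h4 : τ.length < (st (s + 1)).length := by rw [h3]; simp
  rw [← st_getElem h4]
  simp [h3]

theorem zeros_not_S2 : ¬ S2 (fun n => gen n = 0) := by
  intro h
  obtain ⟨R, hR, hR'⟩ := h
  let p : List ℕ → Prop := fun τ => ∃ n, τ.getD n 0 ≠ 0 ∧ gen n = 0
  have hp : S2 p := by
    refine S2.mk (A := ℕ × ℕ) (B := ℕ) (fun z =>
      (decide (¬ z.1.getD z.2.1.1 0 = 0)) && R (z.2.1.1, z.2.1.2, z.2.2)) ?_ fun τ => ?_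
    · have h1 : Primrec (fun z : List ℕ × (ℕ × ℕ) × ℕ => decide (¬ z.1.getD z.2.1.1 0 = 0)) :=
        (PrimrecPred.not (Primrec.eq.comp ((Primrec.list_getD 0).comp Primrec.fst
          (Primrec.fst.comp (Primrec.fst.comp Primrec.snd))) (Primrec.const 0))).decide
      have h2 : Computable (fun z : List ℕ × (ℕ × ℕ) × ℕ => R (z.2.1.1, z.2.1.2, z.2.2)) :=
        hR.comp (cpair (Computable.fst.comp (Computable.fst.comp Computable.snd))
          (cpair (Computable.snd.comp (Computable.fst.comp Computable.snd))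
            (Computable.snd.comp Computable.snd)))
      exact Primrec.and.to_comp.comp h1.to_comp h2
    · constructor
      · rintro ⟨n, hn, hn0⟩
        obtain ⟨a, ha⟩ := (hR' n).1 hn0
        refine ⟨(n, a), fun b => ?_⟩
        simp only [Bool.and_eq_true, decide_eq_true_eq]
        exact ⟨hn, ha b⟩
      · rintro ⟨⟨n, a⟩, h⟩
        simp only [Bool.and_eq_true, decide_eq_true_eq] at h
        exact ⟨n, (h 0).1, (hR' n).2 ⟨a, fun b => (h b).2⟩⟩
  rcases generic hp with ⟨k, n, hn, hn0⟩ | ⟨k, hk⟩
  · by_cases hnk : n < k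
    · apply hn
      have := seg_getElem? gen k n
      rw [if_pos hnk] at this
      rw [List.getD_eq_getElem?_getD, this, hn0]
      rfl
    · apply hn
      have := seg_getElem? gen k n
      rw [if_neg hnk] at this
      rw [List.getD_eq_getElem?_getD, this]
      rfl
  · obtain ⟨n, hkn, hn0⟩ := zeros_unbounded k
    refine hk (seg gen n ++ [1]) ((seg_prefix gen hkn).trans (List.prefix_append _ _)) ⟨n, ?_, hn0⟩
    rw [List.getD_eq_getElem?_getD, List.getElem?_append_right (by rw [seg_length])]
    simp [seg_length]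

end Pool.Agent.Helper90.Sol
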